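import Pool.Agent.H85.LSP.Nr

/-!
# LSP: rows PIG, NST, GEN, CON
-/

set_option autoImplicit false

namespace Pool.LSP

open Finset Filter Topology

/-- A pigeonhole. -/
theorem pgh {ι : Type} (m : ℕ) (S : Finset ι) (hS : S.card ≤ m) (bad : ι → ℕ → Prop)
    (h : ∀ i ∈ S, ∀ k k', k ≤ m → k' ≤ m → bad i k → bad i k' → k = k') :
    ∃ k, k ≤ m ∧ ∀ i ∈ S, ¬ bad i k := by
  classical
  by_contra hcon
  push Not at hcon
  obtain ⟨i0, -⟩ := hcon 0 (Nat.zero_le m)
  have : Nonempty ι := ⟨i0⟩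
  choose! f hf using hcon
  have h1 : (Finset.range (m + 1)).card ≤ S.card := by
    refine Finset.card_le_card_of_injOn f (fun k hk => ?_) (fun k hk k' hk' e => ?_)
    · have hk1 : k ≤ m := by
        rw [Finset.mem_coe, Finset.mem_range] at hk
        omega
      exact (hf k hk1).1
    · rw [Finset.mem_coe, Finset.mem_range] at hk hk'
      have h2 := hf k (by omega)
      have h3 := hf k' (by omega)
      rw [← e] at h3
      exact h (f k) h2.1 k k' (by omega) (by omega) h2.2 h3.2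
  rw [Finset.card_range] at h1
  omega

theorem qq_ge (m : ℕ) : 32 ≤ qq m := by
  unfold qq
  have h : (1 : ℝ) ≤ (m : ℝ) + 1 := by
    have : (0 : ℝ) ≤ m := Nat.cast_nonneg m
    linarith
  have h2 : (1 : ℝ) ≤ ((m : ℝ) + 1) ^ 3 := one_le_pow₀ h
  linarith

/-- The real part of `(1 + l I) w`. -/
theorem re_one_add (l : ℕ) (w : ℂ) : ((1 + (l : ℂ) * Complex.I) * w).re = w.re - l * w.im := by
  simp [Complex.mul_re, Complex.add_re, Complex.add_im]

theorem norm_one_add (l m : ℕ) (h : l ≤ m) : ‖(1 + (l : ℂ) * Complex.I)‖ ≤ (m : ℝ) + 1 := by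
  refine (norm_add_le _ _).trans ?_
  rw [norm_one, norm_mul, Complex.norm_I, mul_one, Complex.norm_natCast]
  have : (l : ℝ) ≤ m := by exact_mod_cast h
  linarith

/-- The choice of the direction. -/
theorem pig_dir (m : ℕ) {ι : Type} (S : Finset ι) (w : ι → ℂ) (hS : S.card ≤ m)
    (hw : ∀ i ∈ S, w i ≠ 0) : ∃ l : ℕ, l ≤ m ∧ ∀ i ∈ S,
      ‖w i‖ / (4 * ((m : ℝ) + 1)) ≤ |((1 + (l : ℂ) * Complex.I) * w i).re| := by
  have hm : (0 : ℝ) ≤ m := Nat.cast_nonneg m
  have key : ∀ i ∈ S, ∀ k k' : ℕ, k ≤ m → k' ≤ m → k < k' →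
      |((1 + (k : ℂ) * Complex.I) * w i).re| < ‖w i‖ / (4 * ((m : ℝ) + 1)) →
      |((1 + (k' : ℂ) * Complex.I) * w i).re| < ‖w i‖ / (4 * ((m : ℝ) + 1)) → False := by
    intro i hi k k' hk hk' hlt h1 h2
    rw [re_one_add] at h1 h2
    have hpos : 0 < ‖w i‖ := norm_pos_iff.2 (hw i hi)
    obtain ⟨θ, hθ⟩ : ∃ θ : ℝ, θ = ‖w i‖ / (4 * ((m : ℝ) + 1)) := ⟨_, rfl⟩
    rw [← hθ] at h1 h2
    have hθ1 : θ * (4 * ((m : ℝ) + 1)) = ‖w i‖ := by
      rw [hθ]
      field_simp
    have hθ0 : 0 < θ := by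
      rw [hθ]
      positivity
    have hk1 : (1 : ℝ) ≤ (k' : ℝ) - k := by
      have : (k : ℝ) + 1 ≤ k' := by exact_mod_cast hlt
      linarith
    have hb : |(w i).im| ≤ 2 * θ := by
      have e : ((k' : ℝ) - k) * (w i).im = ((w i).re - k * (w i).im) -
          ((w i).re - k' * (w i).im) := by ring
      have h3 : |((k' : ℝ) - k) * (w i).im| ≤ 2 * θ := by
        rw [e]
        refine (abs_sub _ _).trans ?_
        linarith
      rw [abs_mul, abs_of_nonneg (by linarith : (0 : ℝ) ≤ (k' : ℝ) - k)] at h3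
      have h4 := abs_nonneg (w i).im
      nlinarith
    have ha : |(w i).re| < θ + m * (2 * θ) := by
      have e : (w i).re = ((w i).re - k * (w i).im) + k * (w i).im := by ring
      rw [e]
      refine lt_of_le_of_lt (abs_add_le _ _) ?_
      rw [abs_mul, abs_of_nonneg (Nat.cast_nonneg k : (0 : ℝ) ≤ k)]
      have hkm : (k : ℝ) ≤ m := by exact_mod_cast hk
      have h4 := abs_nonneg (w i).im
      have h5 : (k : ℝ) * |(w i).im| ≤ m * (2 * θ) :=
        mul_le_mul hkm hb h4 hm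
      linarith
    have hn := Complex.norm_le_abs_re_add_abs_im (w i)
    nlinarith
  obtain ⟨l, hl, h⟩ := pgh m S hS (fun i l => |((1 + (l : ℂ) * Complex.I) * w i).re| <
    ‖w i‖ / (4 * ((m : ℝ) + 1))) (by
      intro i hi k k' hk hk' h1 h2
      rcases lt_trichotomy k k' with h3 | h3 | h3
      · exact absurd (key i hi k k' hk hk' h3 h1 h2) (by simp)
      · exact h3
      · exact absurd (key i hi k' k hk' hk h3 h2 h1) (by simp))
  exact ⟨l, hl, fun i hi => not_lt.1 (h i hi)⟩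

/-- **PIG** -/
theorem t_pig : PIGStmt := by
  intro m ι S φ w z r hr hS hw hwr
  have hm : (0 : ℝ) ≤ m := Nat.cast_nonneg m
  have hm1 : (0 : ℝ) < (m : ℝ) + 1 := by linarith
  obtain ⟨l, hl, hdir⟩ := pig_dir m S w hS hw
  obtain ⟨τ, hτ⟩ : ∃ τ : ℝ, τ = r / (2 * ((m : ℝ) + 1) ^ 2) := ⟨_, rfl⟩
  have hτ0 : 0 < τ := by
    rw [hτ]
    positivity
  obtain ⟨v, hv⟩ : ∃ v : ℂ, v = 1 + (l : ℂ) * Complex.I := ⟨_, rfl⟩
  have hvn : ‖v‖ ≤ (m : ℝ) + 1 := by
    rw [hv]
    exact norm_one_add l m hl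
  rw [← hv] at hdir
  have hq := qq_ge m
  have hq0 : 0 < qq m := by linarith
  -- the value at the candidate `k`
  have hval : ∀ (i : ι) (k : ℕ), ((z + (k * τ : ℝ) * v) * w i).re =
      (z * w i).re + k * (τ * (v * w i).re) := by
    intro i k
    have e : (z + ((k * τ : ℝ) : ℂ) * v) * w i = z * w i + ((k * τ : ℝ) : ℂ) * (v * w i) := by
      ring
    rw [e, Complex.add_re, Complex.re_ofReal_mul]
    ring
  have hs1 : ∀ i ∈ S, |τ * (v * w i).re| * m ≤ 1 / 8 := by
    intro i hi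
    have h1 : |(v * w i).re| ≤ ((m : ℝ) + 1) * ‖w i‖ := by
      refine (Complex.abs_re_le_norm _).trans ?_
      rw [norm_mul]
      exact mul_le_mul_of_nonneg_right hvn (norm_nonneg _)
    rw [abs_mul, abs_of_pos hτ0]
    have h2 : τ * |(v * w i).re| * m ≤ τ * (((m : ℝ) + 1) * ‖w i‖) * ((m : ℝ) + 1) := by
      have h3 : τ * |(v * w i).re| ≤ τ * (((m : ℝ) + 1) * ‖w i‖) :=
        mul_le_mul_of_nonneg_left h1 hτ0.le
      exact mul_le_mul h3 (by linarith) hm (by positivity)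
    refine h2.trans ?_
    have h3 : τ * (((m : ℝ) + 1) * ‖w i‖) * ((m : ℝ) + 1) = r * ‖w i‖ / 2 := by
      rw [hτ]
      field_simp
    rw [h3]
    have := hwr i hi
    nlinarith
  have hs2 : ∀ i ∈ S, 4 * (r * ‖w i‖ / qq m) ≤ |τ * (v * w i).re| := by
    intro i hi
    rw [abs_mul, abs_of_pos hτ0]
    have h1 := mul_le_mul_of_nonneg_left (hdir i hi) hτ0.le
    refine le_trans (le_of_eq ?_) h1
    rw [hτ]
    unfold qq
    field_simp
    ring
  obtain ⟨k, hk, hgood⟩ := pgh m S hS (fun i k =>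
    hd (φ i + ((z + (k * τ : ℝ) * v) * w i).re) < 2 * (r * ‖w i‖ / qq m)) (by
      intro i hi k k' hk hk' h1 h2
      simp only [hval] at h1 h2
      obtain ⟨s, hs⟩ : ∃ s : ℝ, s = τ * (v * w i).re := ⟨_, rfl⟩
      have b1 := hs1 i hi
      have b2 := hs2 i hi
      rw [← hs] at h1 h2 b1 b2
      obtain ⟨η, hη⟩ : ∃ η : ℝ, η = r * ‖w i‖ / qq m := ⟨_, rfl⟩
      rw [← hη] at h1 h2 b2
      have hη1 : η ≤ 1 / 128 := by
        rw [hη, div_le_iff₀ hq0]
        have := hwr i hi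
        nlinarith
      obtain ⟨p, hp⟩ := exists_of_hd_lt h1
      obtain ⟨p', hp'⟩ := exists_of_hd_lt h2
      have hkm : (k : ℝ) ≤ m := by exact_mod_cast hk
      have hkm' : (k' : ℝ) ≤ m := by exact_mod_cast hk'
      have hk0 : (0 : ℝ) ≤ k := Nat.cast_nonneg k
      have hk0' : (0 : ℝ) ≤ k' := Nat.cast_nonneg k'
      have hdk : |((k : ℝ) - k') * s| ≤ 1 / 8 := by
        rw [abs_mul, mul_comm]
        refine le_trans (mul_le_mul_of_nonneg_left ?_ (abs_nonneg s)) b1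
        rw [abs_le]
        constructor <;> linarith
      have hpp : p = p' := by
        have h3 : |((p - p' : ℤ) : ℝ)| < 1 := by
          push_cast
          rw [abs_lt] at hp hp' ⊢
          rw [abs_le] at hdk
          constructor <;> linarith [hp.1, hp.2, hp'.1, hp'.2, hdk.1, hdk.2]
        have h4 : |p - p'| < 1 := by exact_mod_cast h3
        have h5 := Int.abs_lt_one_iff.1 h4
        omega
      rw [← hpp] at hp'
      have h6 : |((k : ℝ) - k') * s| < 4 * η := by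
        rw [abs_lt] at hp hp' ⊢
        constructor <;> linarith [hp.1, hp.2, hp'.1, hp'.2]
      by_contra hne
      have h7 : (1 : ℝ) ≤ |(k : ℝ) - k'| := by
        have h8 : (1 : ℤ) ≤ |(k : ℤ) - k'| := by
          refine Int.one_le_abs ?_
          omega
        exact_mod_cast h8
      rw [abs_mul] at h6
      have h9 := abs_nonneg s
      nlinarith)
  refine ⟨z + (k * τ : ℝ) * v, fun u hu => ⟨?_, fun i hi => ?_⟩⟩
  · have e : u - z = (u - (z + ((k * τ : ℝ) : ℂ) * v)) + ((k * τ : ℝ) : ℂ) * v := by ring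
    rw [e]
    refine (norm_add_le _ _).trans ?_
    have h1 : ‖((k * τ : ℝ) : ℂ) * v‖ ≤ r / 2 := by
      rw [norm_mul, Complex.norm_real, Real.norm_eq_abs, abs_of_nonneg (by positivity)]
      have hkm : (k : ℝ) ≤ (m : ℝ) + 1 := by
        have : (k : ℝ) ≤ m := by exact_mod_cast hk
        linarith
      calc (k : ℝ) * τ * ‖v‖ ≤ ((m : ℝ) + 1) * τ * ((m : ℝ) + 1) :=
            mul_le_mul (mul_le_mul_of_nonneg_right hkm hτ0.le) hvn (norm_nonneg _) (by positivity)
        _ = r / 2 := by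
            rw [hτ]
            field_simp
    have h2 : r / qq m ≤ r / 32 := div_le_div_of_nonneg_left hr.le (by norm_num) hq
    linarith
  · have h1 := not_lt.1 (hgood i hi)
    have h2 := hd_ge_sub (φ i + (u * w i).re) (φ i + ((z + (k * τ : ℝ) * v) * w i).re)
    have h3 : |φ i + (u * w i).re - (φ i + ((z + (k * τ : ℝ) * v) * w i).re)| ≤
        r / qq m * ‖w i‖ := by
      have e : φ i + (u * w i).re - (φ i + ((z + (k * τ : ℝ) * v) * w i).re) =
          ((u - (z + (k * τ : ℝ) * v)) * w i).re := by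
        rw [sub_mul, Complex.sub_re]
        ring
      rw [e]
      refine (Complex.abs_re_le_norm _).trans ?_
      rw [norm_mul]
      exact mul_le_mul_of_nonneg_right hu (norm_nonneg _)
    have h4 : r / qq m * ‖w i‖ = r * ‖w i‖ / qq m := by ring
    rw [h4] at h3
    linarith

/-- **NST** -/
theorem t_nst (hPIG : PIGStmt) : NSTStmt := by
  classical
  intro m ι S φ w z W hW hwW hcard
  have hq := qq_ge m
  have hq0 : 0 < qq m := by linarith
  have key : ∀ K : ℕ, ∃ z' : ℂ, ∀ u : ℂ, ‖u - z'‖ ≤ 1 / (4 * qq m * W * qq m ^ K) →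
      ‖u - z‖ ≤ 1 / (4 * qq m * W) ∧ ∀ i ∈ S, ‖w i‖ ≤ qq m ^ K * W →
        1 / (4 * qq m ^ 2) ≤ hd (φ i + (u * w i).re) := by
    intro K
    induction K with
    | zero =>
      refine ⟨z, fun u hu => ⟨by simpa using hu, fun i hi h => ?_⟩⟩
      rw [pow_zero, one_mul] at h
      exact absurd h (not_le.2 (hwW i hi))
    | succ K ih =>
      obtain ⟨z1, h1⟩ := ih
      have hK0 : 0 < qq m ^ K := by positivity
      obtain ⟨r, hr⟩ : ∃ r : ℝ, r = 1 / (4 * qq m * W * qq m ^ K) := ⟨_, rfl⟩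
      have hr0 : 0 < r := by
        rw [hr]
        positivity
      have hX : W ≤ qq m ^ K * W := by
        have : (1 : ℝ) ≤ qq m ^ K := one_le_pow₀ (by linarith)
        nlinarith
      obtain ⟨z', hz'⟩ := hPIG m ι (S.filter fun i => qq m ^ K * W < ‖w i‖ ∧
        ‖w i‖ ≤ qq m * (qq m ^ K * W)) φ w z1 r hr0 (hcard _ hX) (fun i hi => by
          have h2 := (Finset.mem_filter.1 hi).1
          have h3 := hwW i h2
          exact norm_pos_iff.1 (hW.trans h3)) (fun i hi => by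
          have h2 := (Finset.mem_filter.1 hi).2.2
          rw [hr]
          have h3 : 4 * (1 / (4 * qq m * W * qq m ^ K)) * ‖w i‖ =
              ‖w i‖ / (qq m * (qq m ^ K * W)) := by
            field_simp
          rw [h3, div_le_one (by positivity)]
          exact h2)
      refine ⟨z', fun u hu => ?_⟩
      have hu' : ‖u - z'‖ ≤ r / qq m := by
        refine hu.trans (le_of_eq ?_)
        rw [hr, pow_succ]
        field_simp
      obtain ⟨a1, a2⟩ := hz' u hu'
      obtain ⟨b1, b2⟩ := h1 u (by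
        rw [← hr]
        exact a1)
      refine ⟨b1, fun i hi hle => ?_⟩
      by_cases hc : ‖w i‖ ≤ qq m ^ K * W
      · exact b2 i hi hc
      · push Not at hc
        have h2 := a2 i (Finset.mem_filter.2 ⟨hi, hc, by
          rw [pow_succ] at hle
          linarith⟩)
        refine le_trans ?_ h2
        rw [hr]
        have h3 : 1 / (4 * qq m * W * qq m ^ K) * ‖w i‖ / qq m =
            ‖w i‖ / (qq m ^ K * W) * (1 / (4 * qq m ^ 2)) := by
          field_simp
        rw [h3]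
        have h4 : 1 ≤ ‖w i‖ / (qq m ^ K * W) := by
          rw [one_le_div (by positivity)]
          exact hc.le
        have h5 : 0 < 1 / (4 * qq m ^ 2) := by positivity
        nlinarith
  obtain ⟨K, hK⟩ : ∃ K : ℕ, ∀ i ∈ S, ‖w i‖ ≤ qq m ^ K * W := by
    obtain ⟨K, hK⟩ := pow_unbounded_of_one_lt ((∑ i ∈ S, ‖w i‖) / W)
      (show 1 < qq m by linarith)
    refine ⟨K, fun i hi => ?_⟩
    rw [div_lt_iff₀ hW] at hK
    exact (Finset.single_le_sum (fun j _ => norm_nonneg (w j)) hi).trans hK.le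
  obtain ⟨z', hz'⟩ := key K
  obtain ⟨h1, h2⟩ := hz' z' (by
    rw [sub_self, norm_zero]
    positivity)
  exact ⟨z', h1, fun i hi => h2 i hi (hK i hi)⟩

/-- **GEN** -/
theorem t_gen (hPIG : PIGStmt) (hNST : NSTStmt) : GENStmt := by
  classical
  intro m ι S₀ S₁ φ w W hW hc0 hS0 hS1 hcard
  have hq := qq_ge m
  have hq0 : 0 < qq m := by linarith
  obtain ⟨z1, h1⟩ := hPIG m ι S₀ φ w 0 (1 / (4 * W)) (by positivity) hc0
    (fun i hi => (hS0 i hi).1) (fun i hi => by
      have h2 := (hS0 i hi).2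
      have h3 : 4 * (1 / (4 * W)) * ‖w i‖ = ‖w i‖ / W := by
        field_simp
      rw [h3, div_le_one hW]
      exact h2)
  obtain ⟨z, h2, h3⟩ := hNST m ι S₁ φ w z1 W hW hS1 hcard
  have e : 1 / (4 * W) / qq m = 1 / (4 * qq m * W) := by
    field_simp
  obtain ⟨a1, a2⟩ := h1 z (by
    rw [e]
    exact h2)
  refine ⟨z, by simpa using a1, fun i hi => ?_, h3⟩
  refine le_trans (le_of_eq ?_) (a2 i hi)
  field_simp

/-- **CON** -/
theorem t_con : CONStmt := by
  intro lam hlam K b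
  obtain ⟨A, hA⟩ : ∃ A : ℝ, A = (|K| + 1) * ((b : ℝ) + 3) ^ 6 := ⟨_, rfl⟩
  have hA0 : 0 < A := by
    rw [hA]
    positivity
  have h1 := tendsto_pow_const_div_const_pow_of_one_lt 6 hlam
  have h2 : ∀ᶠ n : ℕ in atTop, (n : ℝ) ^ 6 / lam ^ n < 1 / A :=
    h1.eventually (gt_mem_nhds (by positivity))
  obtain ⟨M, h3, h4, h5⟩ := (h2.and ((eventually_ge_atTop b).and (eventually_ge_atTop 1))).exists
  refine ⟨M, h4, h5, ?_⟩
  have hlM : 0 < lam ^ M := by positivity
  rw [div_lt_div_iff₀ hlM hA0, one_mul] at h3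
  have hM1 : (1 : ℝ) ≤ M := by exact_mod_cast h5
  have hb0 : (0 : ℝ) ≤ b := Nat.cast_nonneg b
  have h6 : ((2 * M + b + 1 : ℕ) : ℝ) ≤ (M : ℝ) * ((b : ℝ) + 3) := by
    push_cast
    nlinarith
  have h7 : ((2 * M + b + 1 : ℕ) : ℝ) ^ 6 ≤ ((M : ℝ) * ((b : ℝ) + 3)) ^ 6 :=
    pow_le_pow_left₀ (Nat.cast_nonneg _) h6 6
  rw [mul_pow] at h7
  have h8 : K * ((2 * M + b + 1 : ℕ) : ℝ) ^ 6 ≤ (|K| + 1) * ((2 * M + b + 1 : ℕ) : ℝ) ^ 6 := by
    refine mul_le_mul_of_nonneg_right ?_ (by positivity)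
    have := le_abs_self K
    linarith
  have h9 : (|K| + 1) * ((2 * M + b + 1 : ℕ) : ℝ) ^ 6 ≤
      (|K| + 1) * ((M : ℝ) ^ 6 * ((b : ℝ) + 3) ^ 6) :=
    mul_le_mul_of_nonneg_left h7 (by positivity)
  rw [hA] at h3
  have h10 : (|K| + 1) * ((M : ℝ) ^ 6 * ((b : ℝ) + 3) ^ 6) =
      (M : ℝ) ^ 6 * ((|K| + 1) * ((b : ℝ) + 3) ^ 6) := by ring
  linarith

end Pool.LSP
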